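import Pool.Agent.W363.JQ.Stm

set_option autoImplicit false
open Filter Topology Set Metric

namespace Pool.Agent.W880.JQ

open Pool.Agent.W363.JQ

theorem dist0 : S_dist := by
  intro ψ a r hr hd hc ha hl
  obtain ⟨lam, hlam⟩ : ∃ l, l = deriv ψ a := ⟨_, rfl⟩
  rw [← hlam] at hl ⊢
  have hd' : DifferentiableOn ℂ (deriv ψ) (ball a r) := hd.deriv isOpen_ball
  have hds : DifferentiableOn ℂ (dslope (deriv ψ) a) (ball a r) :=
    (Complex.differentiableOn_dslope (isOpen_ball.mem_nhds (mem_ball_self hr))).2 hd'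
  obtain ⟨M0, hM0⟩ : ∃ M, ∀ z ∈ closedBall a (r/2), ‖dslope (deriv ψ) a z‖ ≤ M :=
    (isCompact_closedBall a (r/2)).exists_bound_of_continuousOn
      (hds.continuousOn.mono (closedBall_subset_ball (by linarith)))
  obtain ⟨M, hM⟩ : ∃ M, M = max M0 0 + 1 := ⟨_, rfl⟩
  have hMpos : 0 < M := by
    have := le_max_right M0 0
    rw [hM]; linarith
  have hMM : ∀ z ∈ closedBall a (r/2), ‖dslope (deriv ψ) a z‖ ≤ M := by
    intro z hz
    have h1 := hM0 z hz
    have h2 := le_max_left M0 0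
    rw [hM]; linarith
  have hder : ∀ z ∈ closedBall a (r/2), ‖deriv ψ z - lam‖ ≤ M * ‖z - a‖ := by
    intro z hz
    have h1 : (z - a) • dslope (deriv ψ) a z = deriv ψ z - deriv ψ a := sub_smul_dslope (deriv ψ) a z
    rw [hlam, ← h1, norm_smul, mul_comm]
    exact mul_le_mul_of_nonneg_right (hMM z hz) (norm_nonneg _)
  have key : ∀ s, s ≤ r/2 → ∀ u ∈ ball a s, ∀ v ∈ ball a s,
      ‖(ψ u - ψ v) - lam * (u - v)‖ ≤ M * s * ‖u - v‖ := by
    intro s hs u hu v hv
    have hsub : ball a s ⊆ ball a r := ball_subset_ball (by linarith)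
    have hda : ∀ x ∈ ball a s, DifferentiableAt ℂ ψ x := fun x hx =>
      (hd x (hsub hx)).differentiableAt (isOpen_ball.mem_nhds (hsub hx))
    have h := Convex.norm_image_sub_le_of_norm_deriv_le (𝕜 := ℂ) (f := fun z => ψ z - lam * z)
      (C := M * s) (s := ball a s) (x := v) (y := u)
      (fun x hx => (hda x hx).sub ((differentiableAt_id).const_mul lam))
      (fun x hx => by
        have e1 : deriv (fun z => ψ z - lam * z) x = deriv ψ x - lam := by
          have h1 : HasDerivAt (fun z => ψ z - lam * z) (deriv ψ x - lam * 1) x :=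
            (hda x hx).hasDerivAt.sub ((hasDerivAt_id x).const_mul lam)
          rw [h1.deriv, mul_one]
        rw [e1]
        have hx' : x ∈ closedBall a (r/2) := by
          rw [mem_closedBall]; rw [mem_ball] at hx; linarith
        refine (hder x hx').trans ?_
        refine mul_le_mul_of_nonneg_left ?_ hMpos.le
        rw [mem_ball, dist_eq_norm] at hx
        exact hx.le)
      (convex_ball a s) hv hu
    have e2 : ψ u - lam * u - (ψ v - lam * v) = (ψ u - ψ v) - lam * (u - v) := by ring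
    rw [e2] at h
    exact h
  have hlpos : 0 < ‖lam‖ := norm_pos_iff.2 hl
  obtain ⟨ρ, hρ⟩ : ∃ ρ, ρ = min (r/2) (‖lam‖ / (4 * M)) := ⟨_, rfl⟩
  have hρ0 : 0 < ρ := by
    rw [hρ]
    exact lt_min (by linarith) (by positivity)
  have hρr : ρ ≤ r / 2 := by rw [hρ]; exact min_le_left _ _
  have hρl : ρ * (4 * M) ≤ ‖lam‖ := by
    have h1 : ρ ≤ ‖lam‖ / (4 * M) := by rw [hρ]; exact min_le_right _ _
    rwa [le_div_iff₀ (by positivity)] at h1
  obtain ⟨x, hx⟩ : ∃ x, x = M * ρ / ‖lam‖ := ⟨_, rfl⟩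
  have hx0 : 0 ≤ x := by rw [hx]; positivity
  have hx4 : x ≤ 1 / 4 := by
    rw [hx, div_le_iff₀ hlpos]
    linarith
  have hxl : x * ‖lam‖ = M * ρ := by
    rw [hx]; field_simp
  have hstep : ∀ (n : ℕ), ∀ u ∈ ball a (ρ * (1/2)^n), ∀ v ∈ ball a (ρ * (1/2)^n),
      ‖lam‖ * (1 - x * (1/2)^n) * dist u v ≤ dist (ψ u) (ψ v) ∧
      dist (ψ u) (ψ v) ≤ ‖lam‖ * (1 + x * (1/2)^n) * dist u v := by
    intro n u hu v hv
    have hp : (1/2 : ℝ)^n ≤ 1 := pow_le_one₀ (by norm_num) (by norm_num)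
    have hs : ρ * (1/2)^n ≤ r / 2 := by
      have : ρ * (1/2)^n ≤ ρ * 1 := mul_le_mul_of_nonneg_left hp hρ0.le
      linarith
    have h := key _ hs u hu v hv
    have e3 : M * (ρ * (1/2)^n) = ‖lam‖ * (x * (1/2)^n) := by
      calc M * (ρ * (1/2)^n) = (M * ρ) * (1/2)^n := by ring
        _ = (x * ‖lam‖) * (1/2)^n := by rw [hxl]
        _ = _ := by ring
    rw [e3] at h
    have e4 : ‖lam * (u - v)‖ = ‖lam‖ * ‖u - v‖ := norm_mul _ _
    have h5 : ‖ψ u - ψ v‖ ≤ ‖(ψ u - ψ v) - lam * (u - v)‖ + ‖lam * (u - v)‖ := by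
      have := norm_add_le ((ψ u - ψ v) - lam * (u - v)) (lam * (u - v))
      simpa using this
    have h6 : ‖lam * (u - v)‖ ≤ ‖(ψ u - ψ v) - lam * (u - v)‖ + ‖ψ u - ψ v‖ := by
      have := norm_sub_le (ψ u - ψ v) ((ψ u - ψ v) - lam * (u - v))
      have e7 : (ψ u - ψ v) - ((ψ u - ψ v) - lam * (u - v)) = lam * (u - v) := by ring
      rw [e7] at this
      linarith
    rw [dist_eq_norm, dist_eq_norm]
    constructor
    · nlinarith
    · nlinarith
  have hit : ∀ (n : ℕ), ∀ u ∈ ball a ρ, ψ^[n] u ∈ ball a (ρ * (1/2)^n) := by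
    intro n u hu
    induction n with
    | zero => simpa using hu
    | succ n ih =>
      rw [Function.iterate_succ_apply']
      have hp : (1/2 : ℝ)^n ≤ 1 := pow_le_one₀ (by norm_num) (by norm_num)
      have hmem : ψ^[n] u ∈ ball a r := by
        rw [mem_ball] at ih ⊢
        have : ρ * (1/2)^n ≤ ρ * 1 := mul_le_mul_of_nonneg_left hp hρ0.le
        linarith
      have h1 := hc _ hmem a (mem_ball_self hr)
      rw [ha] at h1
      rw [mem_ball] at ih ⊢
      rw [pow_succ]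
      linarith
  refine ⟨ρ, hρ0, by linarith, 1/2, by norm_num, 2, by norm_num, ?_⟩
  intro n u hu v hv
  have main : ∀ n : ℕ,
      (1 - 2 * x * (1 - (1/2)^n)) * (‖lam‖ ^ n * dist u v) ≤ dist (ψ^[n] u) (ψ^[n] v) ∧
      (1 - 2 * x * (1 - (1/2)^n)) * dist (ψ^[n] u) (ψ^[n] v) ≤ ‖lam‖ ^ n * dist u v := by
    intro n
    induction n with
    | zero => simp
    | succ n ih =>
      obtain ⟨h1, h2⟩ := ih
      obtain ⟨h3, h4⟩ := hstep n _ (hit n u hu) _ (hit n v hv)
      rw [Function.iterate_succ_apply', Function.iterate_succ_apply']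
      obtain ⟨p, hp⟩ : ∃ p, p = (1/2 : ℝ)^n := ⟨_, rfl⟩
      obtain ⟨d0, hd0⟩ : ∃ d, d = ‖lam‖ ^ n * dist u v := ⟨_, rfl⟩
      obtain ⟨d1, hd1⟩ : ∃ d, d = dist (ψ^[n] u) (ψ^[n] v) := ⟨_, rfl⟩
      obtain ⟨d2, hd2⟩ : ∃ d, d = dist (ψ (ψ^[n] u)) (ψ (ψ^[n] v)) := ⟨_, rfl⟩
      have hp0 : 0 ≤ p := by rw [hp]; positivity
      have hp1 : p ≤ 1 := by rw [hp]; exact pow_le_one₀ (by norm_num) (by norm_num)
      have e1 : ‖lam‖ ^ (n+1) * dist u v = ‖lam‖ * d0 := by rw [hd0]; ring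
      have e2 : (1/2 : ℝ)^(n+1) = p / 2 := by rw [hp, pow_succ]; ring
      rw [e1, e2, ← hd2]
      rw [← hp, ← hd0, ← hd1] at h1 h2
      rw [← hp, ← hd1, ← hd2] at h3 h4
      have hd1n : 0 ≤ d1 := by rw [hd1]; exact dist_nonneg
      have hd0n : 0 ≤ d0 := by rw [hd0]; positivity
      obtain ⟨y, hy⟩ : ∃ y, y = x * p := ⟨_, rfl⟩
      have hy0 : 0 ≤ y := by rw [hy]; positivity
      have hy1 : y ≤ 1 / 4 := by
        rw [hy]
        have : x * p ≤ x * 1 := mul_le_mul_of_nonneg_left hp1 hx0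
        linarith
      obtain ⟨c, hcc⟩ : ∃ c, c = 1 - 2 * x * (1 - p) := ⟨_, rfl⟩
      have hc1 : c ≤ 1 := by
        rw [hcc]
        have : 0 ≤ x * (1 - p) := mul_nonneg hx0 (by linarith)
        linarith
      have hc2 : 1 / 2 ≤ c := by
        rw [hcc]
        have : x * (1 - p) ≤ x * 1 := mul_le_mul_of_nonneg_left (by linarith) hx0
        linarith
      have e5 : 1 - 2 * x * (1 - p / 2) = c - y := by rw [hcc, hy]; ring
      rw [e5]
      rw [← hcc] at h1 h2
      rw [← hy] at h3 h4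
      constructor
      · calc (c - y) * (‖lam‖ * d0) ≤ (c * (1 - y)) * (‖lam‖ * d0) := by
              refine mul_le_mul_of_nonneg_right ?_ (by positivity)
              nlinarith
          _ = ‖lam‖ * (1 - y) * (c * d0) := by ring
          _ ≤ ‖lam‖ * (1 - y) * d1 :=
              mul_le_mul_of_nonneg_left h1 (mul_nonneg hlpos.le (by linarith))
          _ ≤ d2 := h3
      · calc (c - y) * d2 ≤ (c - y) * (‖lam‖ * (1 + y) * d1) :=
              mul_le_mul_of_nonneg_left h4 (by linarith)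
          _ = ((c - y) * (1 + y)) * (‖lam‖ * d1) := by ring
          _ ≤ c * (‖lam‖ * d1) := by
              refine mul_le_mul_of_nonneg_right ?_ (by positivity)
              nlinarith
          _ = ‖lam‖ * (c * d1) := by ring
          _ ≤ ‖lam‖ * d0 := mul_le_mul_of_nonneg_left h2 hlpos.le
  obtain ⟨h1, h2⟩ := main n
  obtain ⟨c, hcc⟩ : ∃ c, c = 1 - 2 * x * (1 - (1/2 : ℝ)^n) := ⟨_, rfl⟩
  have hc2 : 1 / 2 ≤ c := by
    have hp0 : (0:ℝ) ≤ (1/2)^n := by positivity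
    rw [hcc]
    have : x * (1 - (1/2)^n) ≤ x * 1 := mul_le_mul_of_nonneg_left (by linarith) hx0
    linarith
  rw [← hcc] at h1 h2
  have hd0n : 0 ≤ ‖lam‖ ^ n * dist u v := by positivity
  have hd1n : 0 ≤ dist (ψ^[n] u) (ψ^[n] v) := dist_nonneg
  constructor
  · nlinarith
  · nlinarith

end Pool.Agent.W880.JQ
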