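import Pool.Agent.W363.JQ.Stm

set_option autoImplicit false
open Filter Topology Set Metric

namespace Pool.Agent.W880.JQ

open Pool.Agent.W363.JQ

/-- small elements of the circle are stretched by the factor `E` -/
theorem norm_nsmul_small (E : ℕ) (hE : 2 ≤ E) (y : UnitAddCircle)
    (hy : ‖y‖ < 1 / (2 * (E : ℝ))) : ‖E • y‖ = E * ‖y‖ := by
  have hE0 : (0 : ℝ) < E := by
    have : 0 < E := by omega
    exact_mod_cast this
  obtain ⟨x, rfl⟩ : ∃ x : ℝ, (x : UnitAddCircle) = y := QuotientAddGroup.mk_surjective y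
  rw [UnitAddCircle.norm_eq] at hy
  obtain ⟨x', hx'⟩ : ∃ x', x' = x - round x := ⟨_, rfl⟩
  have hc : (x' : UnitAddCircle) = (x : UnitAddCircle) := by
    rw [hx', AddCircle.coe_sub]
    have h0 : (((round x : ℤ) : ℝ) : UnitAddCircle) = 0 := by
      rw [AddCircle.coe_eq_zero_iff]
      exact ⟨round x, by simp⟩
    rw [h0, sub_zero]
  rw [← hx'] at hy
  rw [← hc]
  have h1 : ‖(x' : UnitAddCircle)‖ = |x'| := by
    rw [hc, UnitAddCircle.norm_eq, hx']
  have h2 : E • (x' : UnitAddCircle) = (((E : ℝ) * x' : ℝ) : UnitAddCircle) := by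
    rw [← AddCircle.coe_nsmul, nsmul_eq_mul]
  have h3 : |(E : ℝ) * x'| < 1 / 2 := by
    rw [abs_mul, abs_of_pos hE0]
    rw [lt_div_iff₀ (by positivity)] at hy
    linarith
  rw [h2, UnitAddCircle.norm_eq, h1]
  have h4 : round ((E : ℝ) * x') = 0 := by
    rw [round_eq_zero_iff]
    rw [abs_lt] at h3
    constructor
    · linarith
    · linarith
  rw [h4, Int.cast_zero, sub_zero, abs_mul, abs_of_pos hE0]

/-- a compact set on which multiplication by `E` is an injective self-map is finite -/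
theorem fin_of_inj (E : ℕ) (hE : 2 ≤ E) (K : Set UnitAddCircle) (hK : IsCompact K)
    (hm : ∀ z ∈ K, E • z ∈ K) (hi : ∀ z ∈ K, ∀ w ∈ K, E • z = E • w → z = w) : K.Finite := by
  classical
  have hE1 : (1 : ℝ) ≤ E := by
    have : 1 ≤ E := by omega
    exact_mod_cast this
  have hE0 : (0 : ℝ) < E := by linarith
  obtain ⟨δ, hδ, hδ'⟩ : ∃ δ : ℝ, 0 < δ ∧ ∀ z ∈ K, ∀ w ∈ K, dist (E • z) (E • w) < δ →
      dist (E • z) (E • w) = E * dist z w := by
    have hexp : ∀ z w : UnitAddCircle, dist z w < 1 / (2 * (E : ℝ)) →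
        dist (E • z) (E • w) = E * dist z w := by
      intro z w h
      rw [dist_eq_norm] at h ⊢
      rw [dist_eq_norm, ← nsmul_sub]
      exact norm_nsmul_small E hE _ h
    obtain ⟨S, hS⟩ : ∃ S : Set (UnitAddCircle × UnitAddCircle),
      S = (K ×ˢ K) ∩ {p | 1 / (2 * (E : ℝ)) ≤ dist p.1 p.2} := ⟨_, rfl⟩
    have hSc : IsCompact S := by
      rw [hS]
      exact (hK.prod hK).inter_right
        (isClosed_le continuous_const (continuous_fst.dist continuous_snd))
    have hfc : Continuous (fun p : UnitAddCircle × UnitAddCircle => dist (E • p.1) (E • p.2)) :=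
      (continuous_fst.nsmul E).dist (continuous_snd.nsmul E)
    rcases S.eq_empty_or_nonempty with he | hne
    · refine ⟨1, one_pos, fun z hz w hw _ => hexp z w ?_⟩
      by_contra hcon
      have : (z, w) ∈ S := by
        rw [hS]
        exact ⟨⟨hz, hw⟩, not_lt.1 hcon⟩
      rw [he] at this
      exact this
    · obtain ⟨p, hp, hmin⟩ := hSc.exists_isMinOn hne hfc.continuousOn
      have hpS := hp
      rw [hS] at hpS
      have hpos : 0 < dist (E • p.1) (E • p.2) := by
        rw [dist_pos]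
        intro h
        have := hi p.1 hpS.1.1 p.2 hpS.1.2 h
        have h2 : 1 / (2 * (E : ℝ)) ≤ dist p.1 p.2 := hpS.2
        rw [this, dist_self] at h2
        have : 0 < 1 / (2 * (E : ℝ)) := by positivity
        linarith
      refine ⟨dist (E • p.1) (E • p.2), hpos, fun z hz w hw hlt => hexp z w ?_⟩
      by_contra hcon
      have hzw : (z, w) ∈ S := by
        rw [hS]
        exact ⟨⟨hz, hw⟩, not_lt.1 hcon⟩
      have := hmin hzw
      simp only [Set.mem_ofPred_eq] at this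
      exact absurd this (not_le.2 hlt)
  obtain ⟨T, hT⟩ : ∃ T : UnitAddCircle → UnitAddCircle, T = fun z => E • z := ⟨_, rfl⟩
  have hTm : ∀ z ∈ K, T z ∈ K := by rw [hT]; exact hm
  have hTd : ∀ z ∈ K, ∀ w ∈ K, dist (T z) (T w) < δ → dist (T z) (T w) = E * dist z w := by
    rw [hT]; exact hδ'
  have hTn : ∀ n : ℕ, ∀ z ∈ K, T^[n] z ∈ K := by
    intro n
    induction n with
    | zero => intro z hz; simpa using hz
    | succ n ih =>
      intro z hz
      rw [Function.iterate_succ_apply]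
      exact ih _ (hTm z hz)
  have hback : ∀ n : ℕ, ∀ z ∈ K, ∀ w ∈ K, dist (T^[n] z) (T^[n] w) < δ →
      (E : ℝ)^n * dist z w = dist (T^[n] z) (T^[n] w) := by
    intro n
    induction n with
    | zero => intro z _ w _ _; simp
    | succ n ih =>
      intro z hz w hw h
      rw [Function.iterate_succ_apply, Function.iterate_succ_apply] at h ⊢
      have h1 := ih _ (hTm z hz) _ (hTm w hw) h
      have h2 : dist (T z) (T w) < δ := by
        have h3 : 1 ≤ (E : ℝ)^n := one_le_pow₀ hE1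
        have h4 : 0 ≤ dist (T z) (T w) := dist_nonneg
        nlinarith
      have h5 := hTd z hz w hw h2
      rw [← h1, h5]
      ring
  by_contra hinf
  have hinf' : K.Infinite := hinf
  obtain ⟨t, htK, htf, htc⟩ := hK.finite_cover_balls (half_pos hδ)
  obtain ⟨A, hAK, hAc⟩ := hinf'.exists_subset_card_eq (htf.toFinset.card + 1 + 1)
  have hne : A.offDiag.Nonempty := by
    obtain ⟨a, ha, b, hb, hab⟩ := Finset.one_lt_card.1 (show 1 < A.card by rw [hAc]; omega)
    exact ⟨(a, b), Finset.mem_offDiag.2 ⟨ha, hb, hab⟩⟩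
  obtain ⟨p, hp, hpmin⟩ := Finset.exists_min_image A.offDiag (fun p => dist p.1 p.2) hne
  have hη : 0 < dist p.1 p.2 := dist_pos.2 (Finset.mem_offDiag.1 hp).2.2
  obtain ⟨n, hn⟩ : ∃ n : ℕ, δ / dist p.1 p.2 < (E : ℝ)^n := by
    have hE2 : (1 : ℝ) < E := by
      have : 1 < E := by omega
      exact_mod_cast this
    exact pow_unbounded_of_one_lt _ hE2
  have hcov : ∀ a ∈ A, ∃ c ∈ htf.toFinset, dist (T^[n] a) c < δ / 2 := by
    intro a ha
    have h1 := htc (hTn n a (hAK ha))
    simp only [Set.mem_iUnion] at h1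
    obtain ⟨c, hc, h2⟩ := h1
    exact ⟨c, htf.mem_toFinset.2 hc, h2⟩
  choose! f hf hfd using hcov
  obtain ⟨a, ha, b, hb, hab, hfe⟩ := Finset.exists_ne_map_eq_of_card_lt_of_maps_to
    (show htf.toFinset.card < A.card by rw [hAc]; omega) (f := f) (fun a ha => hf a ha)
  have hd : dist (T^[n] a) (T^[n] b) < δ := by
    have h1 := hfd a ha
    have h2 := hfd b hb
    rw [← hfe] at h2
    have h3 := dist_triangle_right (T^[n] a) (T^[n] b) (f a)
    linarith
  have h4 := hback n a (hAK ha) b (hAK hb) hd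
  have h5 := hpmin (a, b) (Finset.mem_offDiag.2 ⟨ha, hb, hab⟩)
  simp only at h5
  rw [div_lt_iff₀ hη] at hn
  have h6 : (E : ℝ)^n * dist p.1 p.2 ≤ (E : ℝ)^n * dist a b :=
    mul_le_mul_of_nonneg_left h5 (by positivity)
  linarith

theorem perang : S_perang := by
  classical
  intro D φ F hD hφ hper hconj hBU _hL x hx hq
  obtain ⟨q, hq1, hqx⟩ := hq
  have hperZ : ∀ (t : ℝ) (k : ℤ), φ (t + k) = φ t := by
    intro t k
    have h : Function.Periodic φ 1 := hper
    have := h.int_mul k t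
    simpa using this
  have hiter : ∀ (i : ℕ) (t : ℝ), φ ((D : ℝ)^i * t) = F^[i] (φ t) := by
    intro i
    induction i with
    | zero => intro t; simp
    | succ i ih =>
      intro t
      rw [Function.iterate_succ_apply', ← ih, hconj, pow_succ]
      ring_nf
  have hinj : ∀ (i : ℕ) (t t' : ℝ), φ t = φ t' → (∃ k : ℤ, (D : ℝ)^i * t' = (D : ℝ)^i * t + k) →
      ∃ k : ℤ, t' = t + k := by
    intro i
    induction i with
    | zero => intro t t' _ h; simpa using h
    | succ i ih =>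
      intro t t' htt h
      apply ih t t' htt
      apply hBU
      · rw [hiter, hiter, htt]
      · obtain ⟨k, hk⟩ := h
        refine ⟨k, ?_⟩
        rw [pow_succ] at hk
        linarith
  obtain ⟨E, hE⟩ : ∃ E, E = D^q := ⟨_, rfl⟩
  have hE2 : 2 ≤ E := by
    rw [hE]
    calc 2 ≤ D := hD
      _ = D^1 := (pow_one D).symm
      _ ≤ D^q := Nat.pow_le_pow_right (by omega) hq1
  have hcE : (E : ℝ) = (D : ℝ)^q := by rw [hE]; push_cast; rfl
  obtain ⟨K, hK⟩ : ∃ K : Set UnitAddCircle,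
    K = (fun t : ℝ => (t : UnitAddCircle)) '' (Icc 0 1 ∩ {t | φ t = x}) := ⟨_, rfl⟩
  have hcoe : ∀ s t : ℝ, ((s : UnitAddCircle) = (t : UnitAddCircle)) ↔ ∃ k : ℤ, s = t + k := by
    intro s t
    rw [← sub_eq_zero, ← AddCircle.coe_sub, AddCircle.coe_eq_zero_iff]
    constructor
    · rintro ⟨k, hk⟩
      refine ⟨k, ?_⟩
      simp at hk
      linarith
    · rintro ⟨k, hk⟩
      refine ⟨k, ?_⟩
      simp
      linarith
  have hmemK : ∀ t : ℝ, (t : UnitAddCircle) ∈ K ↔ φ t = x := by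
    intro t
    rw [hK]
    constructor
    · rintro ⟨s, ⟨_, hs⟩, hst⟩
      obtain ⟨k, hk⟩ := (hcoe s t).1 hst
      have hs' : φ s = x := hs
      rw [hk, hperZ] at hs'
      exact hs'
    · intro ht
      refine ⟨Int.fract t, ⟨⟨Int.fract_nonneg t, (Int.fract_lt_one t).le⟩, ?_⟩, ?_⟩
      · have h1 : t = Int.fract t + (⌊t⌋ : ℤ) := (Int.fract_add_floor t).symm
        have h2 : φ (Int.fract t) = φ t := by
          conv_rhs => rw [h1]
          rw [hperZ]
        show φ (Int.fract t) = x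
        rw [h2, ht]
      · show ((Int.fract t : ℝ) : UnitAddCircle) = (t : UnitAddCircle)
        rw [hcoe]
        refine ⟨-⌊t⌋, ?_⟩
        have h1 : Int.fract t + (⌊t⌋ : ℤ) = t := Int.fract_add_floor t
        push_cast
        linarith
  have hKc : IsCompact K := by
    rw [hK]
    apply IsCompact.image
    · exact isCompact_Icc.inter_right (isClosed_eq hφ continuous_const)
    · exact AddCircle.continuous_mk' 1
  have hsm : ∀ t : ℝ, E • (t : UnitAddCircle) = (((D : ℝ)^q * t : ℝ) : UnitAddCircle) := by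
    intro t
    rw [← AddCircle.coe_nsmul, nsmul_eq_mul, hcE]
  have hKm : ∀ z ∈ K, E • z ∈ K := by
    intro z hz
    obtain ⟨t, rfl⟩ : ∃ t : ℝ, (t : UnitAddCircle) = z := QuotientAddGroup.mk_surjective z
    rw [hsm, hmemK, hiter, (hmemK t).1 hz, hqx]
  have hKi : ∀ z ∈ K, ∀ w ∈ K, E • z = E • w → z = w := by
    intro z hz w hw h
    obtain ⟨t, rfl⟩ : ∃ t : ℝ, (t : UnitAddCircle) = z := QuotientAddGroup.mk_surjective z
    obtain ⟨s, rfl⟩ : ∃ s : ℝ, (s : UnitAddCircle) = w := QuotientAddGroup.mk_surjective w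
    rw [hsm, hsm, hcoe] at h
    rw [hcoe]
    apply hinj q s t _ h
    rw [(hmemK t).1 hz, (hmemK s).1 hw]
  have hfin : K.Finite := fin_of_inj E hE2 K hKc hKm hKi
  have : Finite K := hfin
  obtain ⟨T, hT⟩ : ∃ T : K → K, ∀ z : K, ((T z : K) : UnitAddCircle) = E • (z : UnitAddCircle) :=
    ⟨fun z => ⟨E • (z : UnitAddCircle), hKm z z.2⟩, fun _ => rfl⟩
  have hTi : Function.Injective T := by
    intro z w h
    apply Subtype.ext
    apply hKi z z.2 w w.2
    rw [← hT, ← hT, h]
  obtain ⟨g, hg⟩ : ∃ g : Equiv.Perm K, ∀ z, g z = T z :=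
    ⟨Equiv.ofBijective T (Finite.injective_iff_bijective.1 hTi), fun _ => rfl⟩
  obtain ⟨m, hm, hgm⟩ : ∃ m : ℕ, 0 < m ∧ g^m = 1 :=
    isOfFinOrder_iff_pow_eq_one.1 (isOfFinOrder_of_finite g)
  have hpow : ∀ (i : ℕ) (z : K), (((g^i) z : K) : UnitAddCircle) = (E^i) • (z : UnitAddCircle) := by
    intro i
    induction i with
    | zero => intro z; simp
    | succ i ih =>
      intro z
      rw [pow_succ', Equiv.Perm.mul_apply, hg, hT, ih, pow_succ', mul_smul]
  refine ⟨q * m, Nat.mul_pos (by omega) hm, ?_⟩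
  intro t ht
  have h1 := hpow m ⟨(t : UnitAddCircle), (hmemK t).2 ht⟩
  rw [hgm] at h1
  have h2 : (t : UnitAddCircle) = (E^m) • (t : UnitAddCircle) := h1
  rw [← AddCircle.coe_nsmul, nsmul_eq_mul] at h2
  have h3 : (((E^m : ℕ) : ℝ)) = (D : ℝ)^(q * m) := by
    push_cast
    rw [hcE, ← pow_mul]
  rw [h3] at h2
  exact (hcoe _ _).1 h2.symm

end Pool.Agent.W880.JQ
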